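import Mathlib

/-!
# Project TH: the thick contact lemma for plane curves

A plane curve `g = 0` of degree `D` through `[0 : 0 : 1]`: there are forms `H`, `H'` of degree
`a - 1` with `H * Y ^ a = H' * X ^ a` modulo `g` and `H` not divisible by `g`.
-/

set_option autoImplicit false

namespace Pool.Agent.Helper43.TH

open MvPolynomial

variable {K : Type*} [Field K]

/-- The exponent of the monomial `X ^ i * Y ^ j * Z ^ k`. -/
noncomputable def mn (i j k : ℕ) : Fin 3 →₀ ℕ :=
  Finsupp.single 0 i + Finsupp.single 1 j + Finsupp.single 2 k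

@[simp] theorem mn_zero (i j k : ℕ) : mn i j k 0 = i := by simp [mn]

@[simp] theorem mn_one (i j k : ℕ) : mn i j k 1 = j := by simp [mn]

@[simp] theorem mn_two (i j k : ℕ) : mn i j k 2 = k := by simp [mn]

theorem mn_self (m : Fin 3 →₀ ℕ) : mn (m 0) (m 1) (m 2) = m := by
  ext i
  fin_cases i <;> simp

theorem degree_mn (m : Fin 3 →₀ ℕ) : m.degree = m 0 + m 1 + m 2 := by
  rw [Finsupp.degree_eq_sum, Fin.sum_univ_three]

/-- All monomials have order at least `n` in `X`, `Y`. -/
def Od (n : ℕ) (P : MvPolynomial (Fin 3) K) : Prop := ∀ m, coeff m P ≠ 0 → n ≤ m 0 + m 1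

theorem Od.sub {n : ℕ} {P Q : MvPolynomial (Fin 3) K} (hP : Od n P) (hQ : Od n Q) :
    Od n (P - Q) := by
  intro m hm
  by_contra h
  apply hm
  rw [coeff_sub, not_not.1 (fun h1 => h (hP m h1)), not_not.1 (fun h1 => h (hQ m h1)), sub_zero]

theorem Od.mul {n k : ℕ} {P Q : MvPolynomial (Fin 3) K} (hP : Od n P) (hQ : Od k Q) :
    Od (n + k) (P * Q) := by
  classical
  intro m hm
  by_contra h
  apply hm
  rw [coeff_mul]
  apply Finset.sum_eq_zero
  intro x hx
  rw [Finset.HasAntidiagonal.mem_antidiagonal] at hx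
  by_cases h1 : coeff x.1 P = 0
  · rw [h1, zero_mul]
  by_cases h2 : coeff x.2 Q = 0
  · rw [h2, mul_zero]
  have h3 := hP _ h1
  have h4 := hQ _ h2
  have h5 : m 0 = x.1 0 + x.2 0 := by rw [← hx]; rfl
  have h6 : m 1 = x.1 1 + x.2 1 := by rw [← hx]; rfl
  omega

theorem Od.zero (P : MvPolynomial (Fin 3) K) : Od 0 P := fun _ _ => Nat.zero_le _

theorem od_X0 (a : ℕ) : Od a (X 0 ^ a : MvPolynomial (Fin 3) K) := by
  classical
  intro m hm
  rw [coeff_X_pow] at hm
  split_ifs at hm with h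
  · rw [← h]; simp
  · exact absurd rfl hm

theorem od_X1 (a : ℕ) : Od a (X 1 ^ a : MvPolynomial (Fin 3) K) := by
  classical
  intro m hm
  rw [coeff_X_pow] at hm
  split_ifs at hm with h
  · rw [← h]; simp
  · exact absurd rfl hm

theorem weight_eq (m : Fin 3 →₀ ℕ) :
    Finsupp.weight (1 : Fin 3 → ℕ) m = m 0 + m 1 + m 2 := by
  rw [Finsupp.weight_apply, Finsupp.sum_fintype _ _ (by simp)]
  simp [Fin.sum_univ_three]

theorem deg_eq {g : MvPolynomial (Fin 3) K} {D : ℕ} (hg : g.IsHomogeneous D) {m : Fin 3 →₀ ℕ}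
    (hm : coeff m g ≠ 0) : m 0 + m 1 + m 2 = D := by
  rw [← weight_eq]
  exact hg hm

theorem isHomogeneous_of {g : MvPolynomial (Fin 3) K} {D : ℕ}
    (h : ∀ m, coeff m g ≠ 0 → m 0 + m 1 + m 2 = D) : g.IsHomogeneous D := by
  intro m hm
  rw [weight_eq]
  exact h m hm

theorem eval_z {g : MvPolynomial (Fin 3) K} {D : ℕ} (hg : g.IsHomogeneous D) :
    eval ![0, 0, 1] g = coeff (mn 0 0 D) g := by
  classical
  rw [eval_eq']
  have h : ∀ m, m ≠ mn 0 0 D →
      coeff m g * ∏ j, (![0, 0, 1] : Fin 3 → K) j ^ m j = 0 := by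
    intro m hne
    by_cases hm : coeff m g = 0
    · rw [hm, zero_mul]
    have h1 := deg_eq hg hm
    rw [Fin.prod_univ_three]
    simp only [Matrix.cons_val_zero, Matrix.cons_val_one, Matrix.cons_val]
    by_cases h0 : m 0 = 0
    · by_cases h2 : m 1 = 0
      · exact absurd (by rw [← mn_self m, h0, h2]; congr 1; omega) hne
      · rw [zero_pow h2]; simp
    · rw [zero_pow h0]; simp
  rw [Finset.sum_eq_single (mn 0 0 D) (fun m _ hm => h m hm)
    (fun hm => by rw [notMem_support_iff.1 hm, zero_mul])]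
  rw [Fin.prod_univ_three]
  simp

theorem eval_y {g : MvPolynomial (Fin 3) K} {D : ℕ} (hg : g.IsHomogeneous D) :
    eval ![0, 1, 0] g = coeff (mn 0 D 0) g := by
  classical
  rw [eval_eq']
  have h : ∀ m, m ≠ mn 0 D 0 →
      coeff m g * ∏ j, (![0, 1, 0] : Fin 3 → K) j ^ m j = 0 := by
    intro m hne
    by_cases hm : coeff m g = 0
    · rw [hm, zero_mul]
    have h1 := deg_eq hg hm
    rw [Fin.prod_univ_three]
    simp only [Matrix.cons_val_zero, Matrix.cons_val_one, Matrix.cons_val]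
    by_cases h0 : m 0 = 0
    · by_cases h2 : m 2 = 0
      · exact absurd (by rw [← mn_self m, h0, h2]; congr 1; omega) hne
      · rw [zero_pow h2]; simp
    · rw [zero_pow h0]; simp
  rw [Finset.sum_eq_single (mn 0 D 0) (fun m _ hm => h m hm)
    (fun hm => by rw [notMem_support_iff.1 hm, zero_mul])]
  rw [Fin.prod_univ_three]
  simp

theorem two_mul_sum_sub {a D : ℕ} (h : D ≤ a + 1) :
    2 * ∑ j ∈ Finset.range D, (a - j) + D * D = 2 * a * D + D := by
  induction D with
  | zero => simp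
  | succ D ih =>
    have h1 := ih (by omega)
    rw [Finset.sum_range_succ]
    obtain ⟨b, rfl⟩ : ∃ b, a = D + b := ⟨a - D, by omega⟩
    have h2 : D + b - D = b := by omega
    rw [h2]
    nlinarith

theorem two_mul_sum_add (a n : ℕ) :
    2 * ∑ s ∈ Finset.range n, (a + s) + n = 2 * n * a + n * n := by
  induction n with
  | zero => simp
  | succ n ih =>
    rw [Finset.sum_range_succ]
    nlinarith

/-- The indices of the monomials of degree `a - 1` of degree less than `D` in `Y`. -/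
abbrev IA (a D : ℕ) : Type := Σ j : Fin D, Fin (a - j)

/-- The indices of the monomials of degree `2 * a - 1 - D` of order at least `a - 1`. -/
abbrev IB (a D : ℕ) : Type := Σ s : Fin (a - D + 1), Fin (a + s)

/-- The indices of the monomials of degree `2 * a - 1` of order at least `a`. -/
abbrev IT (a : ℕ) : Type := Σ s : Fin a, Fin (a + 1 + s)

theorem card_lt {a D : ℕ} (ha : 2 * a = D * D - D + 2) (hD : 1 ≤ D) :
    Fintype.card (IT a) < 2 * Fintype.card (IA a D) + Fintype.card (IB a D) := by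
  have hle : D ≤ D * D := Nat.le_mul_of_pos_left D hD
  have hDa : D ≤ a := by
    have h : 2 * D ≤ D * D - D + 2 := by
      obtain ⟨b, rfl⟩ : ∃ b, D = b + 1 := ⟨D - 1, by omega⟩
      have : (b + 1) * (b + 1) = b * b + 2 * b + 1 := by ring
      rw [this]
      have : b ≤ b * b + 1 := by nlinarith [Nat.zero_le b, sq_nonneg (b : ℤ)]
      omega
    omega
  have e1 : Fintype.card (IA a D) = ∑ j ∈ Finset.range D, (a - j) := by
    rw [Fintype.card_sigma, Finset.sum_range]
    simp
  have e2 : Fintype.card (IB a D) = ∑ s ∈ Finset.range (a - D + 1), (a + s) := by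
    rw [Fintype.card_sigma, Finset.sum_range]
    simp
  have e3 : Fintype.card (IT a) = ∑ s ∈ Finset.range a, (a + 1 + s) := by
    rw [Fintype.card_sigma, Finset.sum_range]
    simp
  rw [e1, e2, e3]
  have f1 := two_mul_sum_sub (a := a) (D := D) (by omega)
  have f2 := two_mul_sum_add a (a - D + 1)
  have f3 := two_mul_sum_add (a + 1) a
  obtain ⟨b, rfl⟩ : ∃ b, a = D + b := ⟨a - D, by omega⟩
  have h2 : D + b - D = b := by omega
  rw [h2] at f2
  generalize ∑ j ∈ Finset.range D, (D + b - j) = S1 at *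
  rw [h2]
  generalize ∑ s ∈ Finset.range (b + 1), (D + b + s) = S2 at *
  generalize ∑ s ∈ Finset.range (D + b), (D + b + 1 + s) = S3 at *
  have h4 : 2 * (D + b) + D = D * D + 2 := by omega
  nlinarith

/-- The exponents of the monomials of the forms `H`, `H'`. -/
noncomputable def eA (a D : ℕ) (p : IA a D) : Fin 3 →₀ ℕ := mn p.2 p.1 (a - 1 - p.1 - p.2)

/-- The exponents of the monomials of the form `Q`. -/
noncomputable def eB (a D : ℕ) (p : IB a D) : Fin 3 →₀ ℕ :=
  mn p.2 (a - 1 + p.1 - p.2) (a - D - p.1)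

/-- The exponents of the monomials of degree `2 * a - 1` and order at least `a`. -/
noncomputable def eT (a : ℕ) (p : IT a) : Fin 3 →₀ ℕ :=
  mn p.2 (a + p.1 - p.2) (a - 1 - p.1)

theorem eA_inj (a D : ℕ) : Function.Injective (eA a D) := by
  rintro ⟨j, i⟩ ⟨j', i'⟩ h
  have h0 := DFunLike.congr_fun h 0
  have h1 := DFunLike.congr_fun h 1
  simp only [eA, mn_zero, mn_one] at h0 h1
  obtain rfl : j = j' := Fin.ext h1
  obtain rfl : i = i' := Fin.ext h0
  rfl

theorem eB_inj (a D : ℕ) : Function.Injective (eB a D) := by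
  rintro ⟨j, i⟩ ⟨j', i'⟩ h
  have h0 := DFunLike.congr_fun h 0
  have h2 := DFunLike.congr_fun h 2
  simp only [eB, mn_zero, mn_two] at h0 h2
  obtain rfl : j = j' := Fin.ext (by omega)
  obtain rfl : i = i' := Fin.ext h0
  rfl

/-- The polynomial with given coefficients. -/
noncomputable def pl {α : Type} [Fintype α] (e : α → Fin 3 →₀ ℕ) :
    (α → K) →ₗ[K] MvPolynomial (Fin 3) K :=
  Fintype.linearCombination K (fun x => monomial (e x) (1 : K))

theorem pl_apply {α : Type} [Fintype α] (e : α → Fin 3 →₀ ℕ) (c : α → K) :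
    pl e c = ∑ x, monomial (e x) (c x) := by
  rw [pl, Fintype.linearCombination_apply]
  refine Finset.sum_congr rfl fun x _ => ?_
  rw [smul_monomial, smul_eq_mul, mul_one]

theorem pl_inj {α : Type} [Fintype α] {e : α → Fin 3 →₀ ℕ} (he : Function.Injective e)
    {c : α → K} (h : pl e c = 0) : c = 0 := by
  classical
  funext x
  have h1 : coeff (e x) (pl e c) = c x := by
    rw [pl_apply, coeff_sum]
    simp only [coeff_monomial]
    rw [Finset.sum_eq_single x]
    · rw [if_pos rfl]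
    · intro y _ hy
      rw [if_neg (fun h => hy (he h))]
    · intro hx
      exact absurd (Finset.mem_univ x) hx
  rw [← h1, h, coeff_zero]
  rfl

theorem exists_of_coeff_pl {α : Type} [Fintype α] {e : α → Fin 3 →₀ ℕ} {c : α → K}
    {m : Fin 3 →₀ ℕ} (h : coeff m (pl e c) ≠ 0) : ∃ x, e x = m := by
  classical
  by_contra hcon
  push Not at hcon
  apply h
  rw [pl_apply, coeff_sum]
  refine Finset.sum_eq_zero fun x _ => ?_
  rw [coeff_monomial, if_neg (hcon x)]

theorem degreeOf_lt {P : MvPolynomial (Fin 3) K} {D : ℕ} (hD : 1 ≤ D)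
    (h : ∀ m, coeff m P ≠ 0 → m 1 < D) : P.degreeOf 1 < D := by
  rw [degreeOf_lt_iff hD]
  intro m hm
  exact h m (mem_support_iff.1 hm)

theorem le_degreeOf {g : MvPolynomial (Fin 3) K} {D : ℕ} (h : coeff (mn 0 D 0) g ≠ 0) :
    D ≤ g.degreeOf 1 := by
  have := monomial_le_degreeOf 1 (mem_support_iff.2 h)
  simpa using this

/-- **Thick contact lemma.** -/
theorem exists_thick {g : MvPolynomial (Fin 3) K} {D : ℕ} (hg : g.IsHomogeneous D) (hD : 1 ≤ D)
    (h0 : eval ![0, 0, 1] g = 0) (h1 : eval ![0, 1, 0] g ≠ 0) :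
    ∃ a, 1 ≤ a ∧ ∃ H H' Q : MvPolynomial (Fin 3) K, H.IsHomogeneous (a - 1) ∧
      H'.IsHomogeneous (a - 1) ∧ H * X 1 ^ a - H' * X 0 ^ a = Q * g ∧
      H ≠ 0 ∧ H.degreeOf 1 < D ∧ ¬ g ∣ H := by
  classical
  rw [eval_z hg] at h0
  rw [eval_y hg] at h1
  have hg0 : g ≠ 0 := fun h => h1 (by rw [h, coeff_zero])
  have hgD := le_degreeOf h1
  -- the number `a`
  have hle : D ≤ D * D := Nat.le_mul_of_pos_left D hD
  obtain ⟨a, ha⟩ : ∃ a, 2 * a = D * D - D + 2 := by
    have h2 : Even (D * D - D) := by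
      have : D * D - D = D * (D - 1) := by rw [Nat.mul_sub_one]
      rw [this]
      exact Nat.even_mul_pred_self D
    obtain ⟨b, hb⟩ := h2
    exact ⟨b + 1, by omega⟩
  have hDa : D ≤ a := by
    have h : 2 * D ≤ D * D - D + 2 := by
      obtain ⟨b, rfl⟩ : ∃ b, D = b + 1 := ⟨D - 1, by omega⟩
      have : (b + 1) * (b + 1) = b * b + 2 * b + 1 := by ring
      rw [this]
      have : b ≤ b * b + 1 := by nlinarith [Nat.zero_le b, sq_nonneg (b : ℤ)]
      omega
    omega
  have ha1 : 1 ≤ a := by omega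
  -- the linear map
  let P : ((IA a D → K) × (IA a D → K) × (IB a D → K)) →ₗ[K] MvPolynomial (Fin 3) K :=
    ((LinearMap.mulRight K (X 1 ^ a : MvPolynomial (Fin 3) K)).comp (pl (eA a D))).comp
        (LinearMap.fst K _ _) -
      (((LinearMap.mulRight K (X 0 ^ a : MvPolynomial (Fin 3) K)).comp (pl (eA a D))).comp
        ((LinearMap.fst K _ _).comp (LinearMap.snd K _ _)) +
      ((LinearMap.mulRight K g).comp (pl (eB a D))).comp
        ((LinearMap.snd K _ _).comp (LinearMap.snd K _ _)))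
  have hP : ∀ u, P u = pl (eA a D) u.1 * X 1 ^ a -
      (pl (eA a D) u.2.1 * X 0 ^ a + pl (eB a D) u.2.2 * g) := fun u => rfl
  let L : ((IA a D → K) × (IA a D → K) × (IB a D → K)) →ₗ[K] (IT a → K) :=
    LinearMap.pi fun t => (lcoeff K (eT a t)).comp P
  have hker : LinearMap.ker L ≠ ⊥ := by
    apply LinearMap.ker_ne_bot_of_finrank_lt
    rw [Module.finrank_prod, Module.finrank_prod, Module.finrank_fintype_fun_eq_card,
      Module.finrank_fintype_fun_eq_card, Module.finrank_fintype_fun_eq_card]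
    have := card_lt ha hD
    omega
  obtain ⟨u, hu, hu0⟩ := Submodule.exists_mem_ne_zero_of_ne_bot hker
  -- the three forms
  set H := pl (K := K) (eA a D) u.1 with hH
  set H' := pl (K := K) (eA a D) u.2.1 with hH'
  set Q := pl (K := K) (eB a D) u.2.2 with hQ
  have hHc : ∀ c : IA a D → K, ∀ m, coeff m (pl (eA a D) c) ≠ 0 →
      m 0 + m 1 + m 2 = a - 1 ∧ m 1 < D := by
    intro c m hm
    obtain ⟨⟨j, i⟩, rfl⟩ := exists_of_coeff_pl hm
    have hj := j.2
    have hi := i.2
    simp only [eA, mn_zero, mn_one, mn_two]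
    omega
  have hQc : ∀ m, coeff m Q ≠ 0 → m 0 + m 1 + m 2 = 2 * a - 1 - D ∧ a - 1 ≤ m 0 + m 1 := by
    intro m hm
    obtain ⟨⟨j, i⟩, rfl⟩ := exists_of_coeff_pl hm
    have hj := j.2
    have hi := i.2
    simp only [eB, mn_zero, mn_one, mn_two]
    omega
  have hHh : H.IsHomogeneous (a - 1) := isHomogeneous_of fun m hm => (hHc _ m hm).1
  have hH'h : H'.IsHomogeneous (a - 1) := isHomogeneous_of fun m hm => (hHc _ m hm).1
  have hQh : Q.IsHomogeneous (2 * a - 1 - D) := isHomogeneous_of fun m hm => (hQc m hm).1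
  have hHd : H.degreeOf 1 < D := degreeOf_lt hD fun m hm => (hHc _ m hm).2
  have hH'd : H'.degreeOf 1 < D := degreeOf_lt hD fun m hm => (hHc _ m hm).2
  -- the relation
  have hPh : (P u).IsHomogeneous (2 * a - 1) := by
    rw [hP]
    have e1 : a - 1 + 1 * a = 2 * a - 1 := by omega
    have e2 : 2 * a - 1 - D + D = 2 * a - 1 := by omega
    have i1 := hHh.mul ((isHomogeneous_X K (1 : Fin 3)).pow a)
    have i2 := hH'h.mul ((isHomogeneous_X K (0 : Fin 3)).pow a)
    have i3 := hQh.mul hg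
    rw [e1] at i1 i2
    rw [e2] at i3
    exact i1.sub (i2.add i3)
  have hgo : Od 1 g := by
    intro m hm
    by_contra hcon
    have h2 := deg_eq hg hm
    apply hm
    rw [← mn_self m, show m 0 = 0 by omega, show m 1 = 0 by omega, show m 2 = D by omega]
    exact h0
  have hQo : Od (a - 1) Q := fun m hm => (hQc m hm).2
  have hPo : Od a (P u) := by
    have i1 := (Od.zero H).mul (od_X1 (K := K) a)
    have i2 := (Od.zero H').mul (od_X0 (K := K) a)
    have i3 := hQo.mul hgo
    rw [zero_add] at i1 i2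
    rw [show a - 1 + 1 = a by omega] at i3
    rw [hP, ← sub_sub]
    exact (i1.sub i2).sub i3
  have hP0 : P u = 0 := by
    ext m
    rw [coeff_zero]
    by_contra hm
    have j1 := deg_eq hPh hm
    have j2 := hPo m hm
    have j3 : ∃ t, eT a t = m := by
      refine ⟨⟨⟨m 0 + m 1 - a, by omega⟩, ⟨m 0, by simp only; omega⟩⟩, ?_⟩
      refine Eq.trans ?_ (mn_self m)
      simp only [eT]
      congr 1
      · omega
      · omega
    obtain ⟨t, ht⟩ := j3
    apply hm
    have j4 := congrFun (LinearMap.mem_ker.1 hu) t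
    rw [← ht]
    exact j4
  have hrel : H * X 1 ^ a - H' * X 0 ^ a = Q * g := by
    rw [hP] at hP0
    linear_combination hP0
  -- the form `H` is not zero
  have hdvd : ∀ P : MvPolynomial (Fin 3) K, P.degreeOf 1 < D → g ∣ P → P = 0 := by
    rintro _ hlt ⟨R, rfl⟩
    by_contra hne
    have hR : R ≠ 0 := fun h => hne (by rw [h, mul_zero])
    rw [degreeOf_mul_eq hg0 hR] at hlt
    omega
  have hHne : H ≠ 0 := by
    intro hz
    have hXg : ¬ (X 0 : MvPolynomial (Fin 3) K) ∣ g := by
      rintro ⟨R, rfl⟩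
      apply h1
      rw [mul_comm, coeff_mul_X', if_neg]
      simp [mn]
    have h2 : (X 0 : MvPolynomial (Fin 3) K) ^ a ∣ Q * g := by
      rw [← hrel, hz, zero_mul, zero_sub]
      exact (dvd_neg.2 (Dvd.intro_left _ rfl))
    obtain ⟨R, hR⟩ := X_prime.pow_dvd_of_dvd_mul_right a hXg h2
    have h3 : H' = - R * g := by
      have h4 : (X 0 : MvPolynomial (Fin 3) K) ^ a ≠ 0 := pow_ne_zero _ (X_ne_zero _)
      apply mul_right_cancel₀ h4
      rw [hR, hz] at hrel
      linear_combination - hrel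
    have h5 : H' = 0 := hdvd _ hH'd (Dvd.intro_left _ h3.symm)
    have h6 : Q = 0 := by
      rw [hz, h5, zero_mul, zero_mul, sub_zero] at hrel
      exact (mul_eq_zero.1 hrel.symm).resolve_right hg0
    apply hu0
    exact Prod.ext (pl_inj (eA_inj a D) hz)
      (Prod.ext (pl_inj (eA_inj a D) h5) (pl_inj (eB_inj a D) h6))
  exact ⟨a, ha1, H, H', Q, hHh, hH'h, hrel, hHne, hHd, fun h => hHne (hdvd _ hHd h)⟩

end Pool.Agent.Helper43.TH
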